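import Pool.Agent.TH160.TowP.CFull

set_option autoImplicit false

/-!
# Generalized towers of height three: all or almost none of the values are free

The number of the problem is `√2 ^ (√2 ^ √2) = (n ^ (1 / 2)) ^ (n ^ (√2 / 2))` for `n = 2`; its
logarithm is `(1 / 2) n ^ (√2 / 2) log n`.  We consider all the functions
`F(n) = ∑ n ^ {c_i} B_i(log n)`, `c_1, ..., c_m` distinct complex numbers, `B_i` complex polynomials of
degree `< D`.  Either all `F(n)` are linear forms in `1` and logarithms of algebraic numbers, with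
algebraic coefficients, or at most `C N (log log N) ^ C / log N` of the first `N` of them are, where
`C` depends only on `m` and `D`; if `F(n)` is no such form, `e ^ F(n)` is transcendental.  The first
case only occurs trivially: `B_i = 0` when `c_i` is irrational and `B_i = a_i + b_i X` with `a_i` a
linear form and `b_i` algebraic when `c_i` is rational.

In particular the numbers `t (b n ^ s) ^ (κ n ^ c)` (`t ≠ 0` any complex number, `c` irrational,
`κ ≠ 0`, `(b, s) ≠ (1, 0)`) are transcendental for all but `C N (log log N) ^ C / log N` of the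
`n ≤ N`, `C` absolute.  (The version with `ε N` exceptions and the factor `t` were found independently
by helper975, `Pool.Agent.TH975.EC`.)

Proof.  A large set of integers contains multiplicative cubes `a ∏ (p_i or q_i)` (helper681).  On such
cubes the Möbius coefficients of `F` are controlled; after removing the rational exponents by
difference operators with algebraic coefficients, all translates of `F` restricted to a small cube lie
in the space `𝓕` spanned by the `∏ (q_i / p_i) ^ {c_j} (log)^e`.  Derivations show that `𝓕` contains no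
nonzero vector with algebraic coordinates.  The hyperplane case of the linear subgroup theorem of
Waldschmidt and Roy (starting files) bounds the number of linearly independent vectors of linear forms
in logarithms in such a space (`RankB`), while the translates provide arbitrarily many.
-/

namespace Pool.Agent.Results.MP_93d8d2_nt.GeneralizedTowers

open Polynomial

/-- The linear combinations, with algebraic coefficients, of `1` and of logarithms of algebraic
numbers. -/
noncomputable def LogForms : Submodule (algebraicClosure ℚ ℂ) ℂ :=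
  Submodule.span (algebraicClosure ℚ ℂ) ({1} ∪ {z : ℂ | IsAlgebraic ℚ (Complex.exp z)})

/-- The numbers `e ^ z` with `z` in `LogForms`, i.e. the numbers `e ^ γ α_1 ^ β_1 ⋯ α_k ^ β_k` with
algebraic `γ`, `α_i ≠ 0`, `β_i`. -/
def Prods : Set ℂ := {x | ∃ z ∈ LogForms, Complex.exp z = x}

/-- `F(n) = ∑ n ^ {c_i} B_i(log n)`. -/
noncomputable def F {m : ℕ} (c : Fin m → ℂ) (B : Fin m → ℂ[X]) (n : ℕ) : ℂ :=
  ∑ i, Complex.exp (c i * ((Real.log n : ℝ) : ℂ)) * (B i).eval ((Real.log n : ℝ) : ℂ)

/-- The trivial case: `B_i = 0` if `c_i` is irrational, and `B_i = a + b X` with `a` in `LogForms`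
and `b` algebraic if `c_i` is rational. -/
def Trivial {m : ℕ} (c : Fin m → ℂ) (B : Fin m → ℂ[X]) : Prop :=
  ∀ i, (¬ (∃ r : ℚ, c i = r) → B i = 0) ∧
    ((∃ r : ℚ, c i = r) → (B i).coeff 0 ∈ LogForms ∧ IsAlgebraic ℚ ((B i).coeff 1) ∧
      ∀ k, 2 ≤ k → (B i).coeff k = 0)

open Classical in
/-- **Main result.** -/
theorem result :
    (∀ m D : ℕ, ∃ C : ℕ, ∀ c : Fin m → ℂ, Function.Injective c → ∀ B : Fin m → ℂ[X],
      (∀ i, (B i).degree < D) →
        (Trivial c B → ∀ n : ℕ, 0 < n → F c B n ∈ LogForms) ∧
        (¬ Trivial c B → ∀ N : ℕ, 16 ≤ N →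
          (((Finset.Icc 1 N).filter fun n : ℕ => F c B n ∈ LogForms).card : ℝ) ≤
            C * Real.log (Real.log N) ^ C / Real.log N * N)) ∧
    (∃ C : ℕ, ∀ t : ℂ, t ≠ 0 → ∀ b κ s c : ℝ, 0 < b → κ ≠ 0 → (b ≠ 1 ∨ s ≠ 0) → Irrational c →
      ∀ N : ℕ, 16 ≤ N → (((Finset.Icc 1 N).filter fun n : ℕ =>
        t * (((b * (n : ℝ) ^ s) ^ (κ * (n : ℝ) ^ c) : ℝ) : ℂ) ∈ Prods).card : ℝ) ≤
          C * Real.log (Real.log N) ^ C / Real.log N * N) ∧
    (∀ z γ δ : ℂ, z ∉ LogForms → IsAlgebraic ℚ γ → IsAlgebraic ℚ δ → δ ≠ 0 →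
      Transcendental ℚ (Complex.exp (γ + δ * z))) := by
  have key : ∀ m D : ℕ, ∃ C : ℕ, ∀ c : Fin m → ℂ, Function.Injective c → ∀ B : Fin m → ℂ[X],
      (∀ i, (B i).degree < D) →
        (Trivial c B → ∀ n : ℕ, 0 < n → F c B n ∈ LogForms) ∧
        (¬ Trivial c B → ∀ N : ℕ, 16 ≤ N →
          (((Finset.Icc 1 N).filter fun n : ℕ => F c B n ∈ LogForms).card : ℝ) ≤
            C * Real.log (Real.log N) ^ C / Real.log N * N) := by
    intro m D
    obtain ⟨C, hC⟩ := Pool.Agent.TH160.TowP.full_complex m D
    refine ⟨C, fun c hc B hB => ?_⟩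
    have hZ : ∀ i, Pool.Agent.TH160.TowP.Z D (B i) := by
      intro i k hk
      apply coeff_eq_zero_of_degree_lt
      refine lt_of_lt_of_le (hB i) ?_
      exact_mod_cast hk
    constructor
    · intro htr n hn
      apply Submodule.sum_mem
      intro i _
      by_cases hr : ∃ r : ℚ, c i = r
      · have h1 := (htr i).2 hr
        obtain ⟨r, hr'⟩ := hr
        have hlog : ((Real.log n : ℝ) : ℂ) ∈ LogForms := by
          refine Submodule.subset_span (Or.inr ?_)
          change IsAlgebraic ℚ (Complex.exp (Pool.Agent.TH160.TowP.lg n))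
          rw [Pool.Agent.TH160.TowP.exp_lg hn]
          exact isAlgebraic_natCast n
        have h2 := Pool.Agent.TH160.TowP.eval_good (V := LogForms) h1 hlog
        have h3 := Pool.Agent.TH160.TowP.pw_alg r hn
        rw [hr']
        exact Pool.Agent.TH160.TowP.V_mul h3 h2
      · rw [(htr i).1 hr, eval_zero, mul_zero]
        exact Submodule.zero_mem _
    · intro hnt N hN
      refine hC N hN c hc B hZ ?_
      intro h
      exact hnt (fun i => ⟨(h i).2, (h i).1⟩)
  refine ⟨key, ?_, ?_⟩
  · obtain ⟨C, hC⟩ := key 2 2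
    refine ⟨C, ?_⟩
    intro t ht b κ s c hb hκ hbs hc N hN
    set B : Fin 2 → ℂ[X] := ![Polynomial.C ((κ * Real.log b : ℝ) : ℂ) +
      Polynomial.C ((κ * s : ℝ) : ℂ) * X, Polynomial.C (Complex.log t)] with hBdef
    have hc0 : (c : ℂ) ≠ 0 := by exact_mod_cast hc.ne_zero
    have h1 := (hC ![(c : ℂ), 0] (by
      intro i j hij
      fin_cases i <;> fin_cases j
      · rfl
      · exact absurd hij hc0
      · exact absurd hij.symm hc0
      · rfl) B (by
      intro i
      fin_cases i
      · change (Polynomial.C ((κ * Real.log b : ℝ) : ℂ) +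
          Polynomial.C ((κ * s : ℝ) : ℂ) * X : ℂ[X]).degree < ((2 : ℕ) : WithBot ℕ)
        rw [add_comm]
        exact lt_of_le_of_lt degree_linear_le (by norm_num)
      · change (Polynomial.C (Complex.log t) : ℂ[X]).degree < ((2 : ℕ) : WithBot ℕ)
        exact lt_of_le_of_lt degree_C_le (by norm_num))).2 ?_ N hN
    · refine le_trans ?_ h1
      have : ((Finset.Icc 1 N).filter fun n : ℕ =>
          t * (((b * (n : ℝ) ^ s) ^ (κ * (n : ℝ) ^ c) : ℝ) : ℂ) ∈ Prods).card ≤
          ((Finset.Icc 1 N).filter fun n : ℕ => F ![(c : ℂ), 0] B n ∈ LogForms).card := by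
        apply Finset.card_le_card
        intro n hn
        rw [Finset.mem_filter] at hn ⊢
        refine ⟨hn.1, ?_⟩
        have hn0 : (0 : ℝ) < n := by
          have := (Finset.mem_Icc.mp hn.1).1
          exact_mod_cast this
        have hbase : (0 : ℝ) < b * (n : ℝ) ^ s := mul_pos hb (Real.rpow_pos_of_pos hn0 s)
        have htow : (0 : ℝ) < (b * (n : ℝ) ^ s) ^ (κ * (n : ℝ) ^ c) :=
          Real.rpow_pos_of_pos hbase _
        have hval : F ![(c : ℂ), 0] B n =
            ((Real.log ((b * (n : ℝ) ^ s) ^ (κ * (n : ℝ) ^ c)) : ℝ) : ℂ) + Complex.log t := by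
          rw [Real.log_rpow hbase, Real.log_mul hb.ne' (Real.rpow_pos_of_pos hn0 s).ne',
            Real.log_rpow hn0, Real.rpow_def_of_pos hn0]
          unfold F
          rw [Fin.sum_univ_two]
          simp only [hBdef, Matrix.cons_val_zero, Matrix.cons_val_one, eval_add, eval_C, eval_mul,
            eval_X, zero_mul, Complex.exp_zero, one_mul]
          push_cast
          rw [mul_comm (Complex.log (n : ℂ)) (c : ℂ)]
          ring
        obtain ⟨z, hz, hze⟩ := hn.2
        have h2 : Complex.exp z = Complex.exp (F ![(c : ℂ), 0] B n) := by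
          rw [hze, hval, Complex.exp_add, Complex.exp_log ht, ← Complex.ofReal_exp,
            Real.exp_log htow]
          ring
        rw [Complex.exp_eq_exp_iff_exists_int] at h2
        obtain ⟨k, hk⟩ := h2
        have h3 : (k : ℂ) * (2 * Real.pi * Complex.I) ∈ LogForms := by
          refine Submodule.subset_span (Or.inr ?_)
          change IsAlgebraic ℚ (Complex.exp ((k : ℂ) * (2 * Real.pi * Complex.I)))
          rw [Complex.exp_int_mul_two_pi_mul_I]
          exact isAlgebraic_one
        have h4 := LogForms.sub_mem hz h3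
        rwa [hk, add_sub_cancel_right] at h4
      exact_mod_cast this
    · intro htr
      have h2 := (htr 0).1 (by
        rintro ⟨r, hr⟩
        apply hc
        refine ⟨r, ?_⟩
        have hr' : (c : ℂ) = (r : ℂ) := hr
        have : ((r : ℝ) : ℂ) = (c : ℂ) := by rw [hr']; push_cast; rfl
        exact_mod_cast this)
      have h2' : (Polynomial.C ((κ * Real.log b : ℝ) : ℂ) +
          Polynomial.C ((κ * s : ℝ) : ℂ) * X : ℂ[X]) = 0 := h2
      have h3 := congrArg (fun p : ℂ[X] => p.coeff 0) h2'
      have h4 := congrArg (fun p : ℂ[X] => p.coeff 1) h2'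
      simp only [coeff_add, coeff_C_zero, coeff_C_mul, coeff_X_zero, mul_zero, add_zero,
        coeff_zero, coeff_X_one, mul_one, Complex.ofReal_eq_zero, mul_eq_zero, hκ, false_or,
        coeff_C_succ, zero_add] at h3 h4
      rcases hbs with hb1 | hs
      · rcases Real.log_eq_zero.mp h3 with h5 | h5 | h5
        · exact hb.ne' h5
        · exact hb1 h5
        · linarith
      · exact hs h4
  · intro z γ δ hz hγ hδ hδ0 halg
    apply hz
    have h1 : γ + δ * z ∈ LogForms := Submodule.subset_span (Or.inr halg)
    have h2 : γ ∈ LogForms := by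
      have := Pool.Agent.TH160.TowP.V_mul (V := LogForms) hγ
        (Submodule.subset_span (Or.inl rfl) : (1 : ℂ) ∈ LogForms)
      rwa [mul_one] at this
    have h3 : δ * z ∈ LogForms := by
      have := LogForms.sub_mem h1 h2
      rwa [add_sub_cancel_left] at this
    exact Pool.Agent.TH160.TowP.mul_mem_iff hδ hδ0 h3

end Pool.Agent.Results.MP_93d8d2_nt.GeneralizedTowers
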