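import Pool.Agent.TH681.TW.Mid

/-!
# Towers `a ^ (n ^ c)`: an explicit bound for the exceptional middle entries

Towers of height three `a ^ (n ^ c)` whose middle entry `n` runs through the integers (for `a = √2`,
`c = √2 / 2` the number for `n = 2` is `√2 ^ (√2 ^ √2)`), also with complex `log a` and `c`.

For all but `C x (log log x) ^ 3 / log x` of the integers `n ≤ x` the number `v n ^ c`, in
particular `log (a ^ (n ^ c))`, is not a linear form in `1` and logarithms of algebraic numbers.
The constant `C` is absolute.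

By the strong six exponentials theorem and the theorem of Gelfond and Schneider the exceptional set
contains no products `m p_i q_j r_k` of two choices of three primes; a set without such grids is thin
(`TH813.Dens`: the box theorem for hypergraphs, and few integers have at most two large prime factors).
-/

set_option autoImplicit false

namespace Pool.Agent.Results.MP_93d8d2_nt.MiddleEntriesRate

/-- linear forms in `1` and logarithms of algebraic numbers, with algebraic coefficients:
`z = γ + β₁ l₁ + ... + βₘ lₘ` with `γ`, the `βᵢ` and the exponentials of the `lᵢ` algebraic -/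
def LogForm (z : ℂ) : Prop :=
  ∃ (m : ℕ) (γ : ℂ) (β l : Fin m → ℂ), IsAlgebraic ℚ γ ∧ (∀ i, IsAlgebraic ℚ (β i)) ∧
    (∀ i, IsAlgebraic ℚ (Complex.exp (l i))) ∧ z = γ + ∑ i, β i * l i

/-- `t` is *free*: its logarithm is not such a form, i.e. `t` is not of the form
`e ^ γ * α₁ ^ β₁ * ... * αₘ ^ βₘ` -/
def Free (t : ℝ) : Prop := ¬ LogForm ((Real.log t : ℝ) : ℂ)

theorem mem_of_logForm {z : ℂ} (h : LogForm z) : z ∈ Pool.Agent.H301R2.SSE.Lt := by
  obtain ⟨m, γ, β, l, hγ, hβ, hl, rfl⟩ := h
  have h1 : ∀ a z : ℂ, IsAlgebraic ℚ a → z ∈ Pool.Agent.H301R2.SSE.Lt →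
      a * z ∈ Pool.Agent.H301R2.SSE.Lt := by
    intro a z ha hz
    have := Submodule.smul_mem Pool.Agent.H301R2.SSE.Lt
      (⟨a, Pool.Agent.H301R2.SSE.mem_QB.mpr ha⟩ : Pool.Agent.H301R2.SSE.QB) hz
    exact this
  refine Submodule.add_mem _ ?_ (Submodule.sum_mem _ (fun i _ => h1 _ _ (hβ i) ?_))
  · have h2 := h1 γ 1 hγ (Submodule.subset_span (Or.inl rfl))
    rwa [mul_one] at h2
  · exact Submodule.subset_span (Or.inr (hl i))

open Classical in
/-- **Main result.** There is an absolute constant `C` such that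
(1) for all complex `v ≠ 0` and all algebraic `c ∉ ℚ`, at most `C x (log log x) ^ 3 / log x` of the
positive integers `n ≤ x` are such that `v n ^ c = v exp (c log n)` is a linear form in `1` and
logarithms of algebraic numbers;
(2) for all positive real `a ≠ 1` and all real algebraic irrational `c` the number `a ^ (n ^ c)` is
free for all but `C x (log log x) ^ 3 / log x` of the positive integers `n ≤ x`. -/
theorem result : ∃ C : ℝ, 0 ≤ C ∧
    (∀ v c : ℂ, v ≠ 0 → IsAlgebraic ℚ c → (∀ r : ℚ, c ≠ r) → ∀ x : ℕ, 16 ≤ x →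
      (((Finset.Icc 1 x).filter
        (fun n : ℕ => LogForm (v * Complex.exp (c * ((Real.log n : ℝ) : ℂ))))).card : ℝ) ≤
        C * x * Real.log (Real.log x) ^ 3 / Real.log x) ∧
    (∀ a c : ℝ, 0 < a → a ≠ 1 → IsAlgebraic ℚ c → Irrational c → ∀ x : ℕ, 16 ≤ x →
      (((Finset.Icc 1 x).filter (fun n : ℕ => ¬ Free (a ^ ((n : ℝ) ^ c)))).card : ℝ) ≤
        C * x * Real.log (Real.log x) ^ 3 / Real.log x) := by
  obtain ⟨C, hC0, hC⟩ := Pool.Agent.TH681.TW.mid_count
  have main : ∀ v c : ℂ, v ≠ 0 → IsAlgebraic ℚ c → (∀ r : ℚ, c ≠ r) → ∀ x : ℕ, 16 ≤ x →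
      (((Finset.Icc 1 x).filter
        (fun n : ℕ => LogForm (v * Complex.exp (c * ((Real.log n : ℝ) : ℂ))))).card : ℝ) ≤
        C * x * Real.log (Real.log x) ^ 3 / Real.log x := by
    intro v c hv hc hci x hx
    refine le_trans ?_ (hC v c hv hc hci x hx)
    have : ((Finset.Icc 1 x).filter
        (fun n : ℕ => LogForm (v * Complex.exp (c * ((Real.log n : ℝ) : ℂ))))).card ≤
        ((Finset.Icc 1 x).filter (fun n : ℕ => v * Pool.Agent.TH681.TW.pw c n ∈
          Pool.Agent.H301R2.SSE.Lt)).card := by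
      apply Finset.card_le_card
      intro n hn
      rw [Finset.mem_filter] at hn ⊢
      exact ⟨hn.1, mem_of_logForm hn.2⟩
    exact_mod_cast this
  refine ⟨C, hC0, main, fun a c ha ha1 hca hci x hx => ?_⟩
  have hL : ((Real.log a : ℝ) : ℂ) ≠ 0 := by
    rw [Complex.ofReal_ne_zero]
    exact Pool.Agent.H137R5.Tow.log_ne ha ha1
  have h1 := main ((Real.log a : ℝ) : ℂ) (c : ℂ) hL
    (Pool.Agent.H462R2.PiE.alg_ofReal hca) (by
      intro r h
      exact hci ⟨r, by exact_mod_cast h.symm⟩) x hx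
  refine le_trans ?_ h1
  have : ((Finset.Icc 1 x).filter (fun n : ℕ => ¬ Free (a ^ ((n : ℝ) ^ c)))).card ≤
      ((Finset.Icc 1 x).filter (fun n : ℕ => LogForm (((Real.log a : ℝ) : ℂ) *
        Complex.exp ((c : ℂ) * ((Real.log n : ℝ) : ℂ))))).card := by
    apply Finset.card_le_card
    intro n hn
    rw [Finset.mem_filter] at hn ⊢
    refine ⟨hn.1, ?_⟩
    have h2 := hn.2
    unfold Free at h2
    rw [not_not] at h2
    have hn0 : (0 : ℝ) < n := by exact_mod_cast (Finset.mem_Icc.1 hn.1).1
    have h3 : ((Real.log (a ^ ((n : ℝ) ^ c)) : ℝ) : ℂ) =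
        ((Real.log a : ℝ) : ℂ) * Complex.exp ((c : ℂ) * ((Real.log n : ℝ) : ℂ)) := by
      rw [Real.log_rpow ha, Real.rpow_def_of_pos hn0]
      push_cast
      ring_nf
    rw [h3] at h2
    exact h2
  exact_mod_cast this

end Pool.Agent.Results.MP_93d8d2_nt.MiddleEntriesRate
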