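import Pool.Agent.TH681.TW.Top

/-!
# Towers `a ^ (b ^ (k c))`: almost all top entries

Towers of height three whose top entry `k c` runs through the integral multiples of an algebraic
irrational number `c`; for `a = b = √2`, `c = √2` the number for `k = 1` is `√2 ^ (√2 ^ √2)`.

Let `z` be transcendental and `v ≠ 0`. In every interval of `N` integers `k` at most `2 √N + 1` are
such that `v z ^ k` is a linear form in `1` and logarithms of algebraic numbers.

By the strong six exponentials theorem the set of the exceptional `k` does not contain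
`{k, l, m} + {0, r}` for different `k, l, m` and `r ≠ 0`: every difference occurs at most twice.
-/

set_option autoImplicit false

namespace Pool.Agent.Results.MP_93d8d2_nt.TopEntries

/-- linear forms in `1` and logarithms of algebraic numbers, with algebraic coefficients:
`z = γ + β₁ l₁ + ... + βₘ lₘ` with `γ`, the `βᵢ` and the exponentials of the `lᵢ` algebraic -/
def LogForm (z : ℂ) : Prop :=
  ∃ (m : ℕ) (γ : ℂ) (β l : Fin m → ℂ), IsAlgebraic ℚ γ ∧ (∀ i, IsAlgebraic ℚ (β i)) ∧
    (∀ i, IsAlgebraic ℚ (Complex.exp (l i))) ∧ z = γ + ∑ i, β i * l i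

/-- `t` is *free*: its logarithm is not such a form, i.e. `t` is not of the form
`e ^ γ * α₁ ^ β₁ * ... * αₘ ^ βₘ`; in particular `t` is transcendental -/
def Free (t : ℝ) : Prop := ¬ LogForm ((Real.log t : ℝ) : ℂ)

theorem mem_of_logForm {z : ℂ} (h : LogForm z) : z ∈ Pool.Agent.H301R2.SSE.Lt := by
  obtain ⟨m, γ, β, l, hγ, hβ, hl, rfl⟩ := h
  have h1 : ∀ a z : ℂ, IsAlgebraic ℚ a → z ∈ Pool.Agent.H301R2.SSE.Lt →
      a * z ∈ Pool.Agent.H301R2.SSE.Lt := by
    intro a z ha hz
    have := Submodule.smul_mem Pool.Agent.H301R2.SSE.Lt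
      (⟨a, Pool.Agent.H301R2.SSE.mem_QB.mpr ha⟩ : Pool.Agent.H301R2.SSE.QB) hz
    exact this
  refine Submodule.add_mem _ ?_ (Submodule.sum_mem _ (fun i _ => h1 _ _ (hβ i) ?_))
  · have h2 := h1 γ 1 hγ (Submodule.subset_span (Or.inl rfl))
    rwa [mul_one] at h2
  · exact Submodule.subset_span (Or.inr (hl i))

open Classical in
/-- **Main result.** (1) Let `z` be a transcendental and `v ≠ 0` a complex number. Among any `N`
consecutive integers at most `2 √N + 1` integers `k` are such that `v z ^ k` is a linear form in `1`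
and logarithms of algebraic numbers.
(2) Let `a, b ≠ 1` be positive real numbers, `b` algebraic, and `c` a real algebraic irrational
number. Among any `N` consecutive integers all `k` with at most `2 √N + 1` exceptions are such that
`a ^ (b ^ (k c))` is free. (3) Free positive numbers are transcendental. -/
theorem result :
    (∀ z v : ℂ, Transcendental ℚ z → v ≠ 0 → ∀ (M : ℤ) (N : ℕ),
      (((Finset.Ioc M (M + N)).filter (fun k : ℤ => LogForm (v * z ^ k))).card : ℝ) ≤
        2 * Real.sqrt N + 1) ∧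
    (∀ a b c : ℝ, 0 < a → a ≠ 1 → 0 < b → b ≠ 1 → IsAlgebraic ℚ b → IsAlgebraic ℚ c →
      Irrational c → ∀ (M : ℤ) (N : ℕ),
      (((Finset.Ioc M (M + N)).filter (fun k : ℤ => ¬ Free (a ^ (b ^ ((k : ℝ) * c))))).card : ℝ) ≤
        2 * Real.sqrt N + 1) ∧
    (∀ t : ℝ, 0 < t → Free t → Transcendental ℚ t) := by
  have main : ∀ z v : ℂ, Transcendental ℚ z → v ≠ 0 → ∀ (M : ℤ) (N : ℕ),
      (((Finset.Ioc M (M + N)).filter (fun k : ℤ => LogForm (v * z ^ k))).card : ℝ) ≤
        2 * Real.sqrt N + 1 := by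
    intro z v hz hv M N
    refine le_trans ?_ (Pool.Agent.TH681.TW.top_count hz hv M N)
    have : ((Finset.Ioc M (M + N)).filter (fun k : ℤ => LogForm (v * z ^ k))).card ≤
        ((Finset.Ioc M (M + N)).filter (fun k : ℤ => v * z ^ k ∈
          Pool.Agent.H301R2.SSE.Lt)).card := by
      apply Finset.card_le_card
      intro n hn
      rw [Finset.mem_filter] at hn ⊢
      exact ⟨hn.1, mem_of_logForm hn.2⟩
    exact_mod_cast this
  refine ⟨main, fun a b c ha ha1 hb hb1 hba hca hci M N => ?_, fun t ht hf h => ?_⟩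
  · have hL : ((Real.log a : ℝ) : ℂ) ≠ 0 := by
      rw [Complex.ofReal_ne_zero]
      exact Pool.Agent.H137R5.Tow.log_ne ha ha1
    have hz : Transcendental ℚ (((b ^ c : ℝ)) : ℂ) :=
      Pool.Agent.H137R5.Tow.trC (Pool.Agent.H137R5.Tow.gs hb hb1 hba hca hci)
    refine le_trans ?_ (main _ _ hz hL M N)
    have : ((Finset.Ioc M (M + N)).filter (fun k : ℤ => ¬ Free (a ^ (b ^ ((k : ℝ) * c))))).card ≤
        ((Finset.Ioc M (M + N)).filter (fun k : ℤ => LogForm (((Real.log a : ℝ) : ℂ) *
          (((b ^ c : ℝ)) : ℂ) ^ k))).card := by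
      apply Finset.card_le_card
      intro k hk
      rw [Finset.mem_filter] at hk ⊢
      refine ⟨hk.1, ?_⟩
      have h2 := hk.2
      unfold Free at h2
      rw [not_not] at h2
      have h3 : ((Real.log (a ^ (b ^ ((k : ℝ) * c))) : ℝ) : ℂ) =
          ((Real.log a : ℝ) : ℂ) * (((b ^ c : ℝ)) : ℂ) ^ k := by
        rw [Real.log_rpow ha, mul_comm (k : ℝ) c, Real.rpow_mul hb.le, Real.rpow_intCast]
        push_cast
        ring
      rw [h3] at h2
      exact h2
    exact_mod_cast this
  · apply hf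
    refine ⟨1, 0, fun _ => 1, fun _ => ((Real.log t : ℝ) : ℂ), isAlgebraic_zero,
      fun _ => isAlgebraic_one, fun _ => ?_, by simp⟩
    rw [← Complex.ofReal_exp, Real.exp_log ht]
    exact Pool.Agent.H462R2.PiE.alg_ofReal h

end Pool.Agent.Results.MP_93d8d2_nt.TopEntries
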