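import Pool.Agent.TH21.MS.Tower

/-!
# The towers `√r ^ (√r ^ √r)` for rational numbers `r`

For `r = 2` the second tower is the number `w = √2 ^ (√2 ^ √2)` of the problem and the first one is
`z = √2 ^ √2`. We prove for all but a very sparse set of rational numbers `r` that the tower
`√r ^ (√r ^ √r)` is not a root of a polynomial of bounded degree whose integer coefficients are
bounded by a fixed power of the denominator bound `T`, and more generally that towers of given
different heights satisfy no such polynomial relation. There are about `T ^ 2` rational numbers of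
denominator at most `T` in an interval; the exceptions number at most `C T ^ β`, for every
`β > 2 - 2 / ((d + 1) ^ n + 1)`: for one tower (`n = 1`) and `d = 1` this is `T ^ (4 / 3 + ε)`
(rational values), for one tower and degree `d` it is `T ^ (2 - 2 / (d + 2) + ε)`.

Proof: the determinant method of helper818 for relations between values of analytic functions at
rational points (`Pool.Agent.TH818.AR`), and the growth of the monomials in the towers.
-/

set_option autoImplicit false

open Set Filter

namespace Pool.Agent.Results.MP_93d8d2_nt.TowersRationalBases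

/-- The tower of height `m + 1` of square roots of `r`, read from the top:
`tower r 0 = √r`, `tower r 1 = √r ^ √r`, `tower r 2 = √r ^ (√r ^ √r)`. -/
noncomputable def tower (r : ℝ) : ℕ → ℝ
  | 0 => √r
  | m + 1 => (√r) ^ (tower r m)

/-- The real numbers `x_1, …, x_n` satisfy a nontrivial polynomial relation with integer coefficients
of absolute value at most `H`, of degree at most `d` in each variable. -/
def Related {n : ℕ} (d : ℕ) (H : ℝ) (x : Fin n → ℝ) : Prop :=
  ∃ P : MvPolynomial (Fin n) ℤ, P ≠ 0 ∧ (∀ k, P.degreeOf k ≤ d) ∧ (∀ e, |((P.coeff e : ℤ) : ℝ)| ≤ H) ∧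
    MvPolynomial.aeval x P = 0

/-- The rational numbers `r` in `[a, b]` with denominator at most `T` for which the towers of the
heights `m_k + 2`, `k = 1, …, n`, satisfy a nontrivial polynomial relation of degree at most `d` in
each variable with integer coefficients of absolute value at most `T ^ A`. -/
def Bad {n : ℕ} (m : Fin n → ℕ) (d : ℕ) (A a b T : ℝ) : Set ℚ :=
  {r : ℚ | (r : ℝ) ∈ Icc a b ∧ (r.den : ℝ) ≤ T ∧ Related d (T ^ A) (fun k => tower r (m k + 1))}

theorem tower_eq (r : ℝ) (m : ℕ) : tower r m = Pool.Agent.TH21.MS.tower r m := by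
  induction m with
  | zero => rfl
  | succ m ih => rw [tower, Pool.Agent.TH21.MS.tower, ih]

/-- The number of bad rational numbers is at most `C T ^ β`, for every
`β > 2 - 2 / ((d + 1) ^ n + 1)`. -/
theorem result (n d : ℕ) (A a b β : ℝ) (ha : 0 < a) (hab : a < b)
    (hβ : 2 - 2 / (((d : ℝ) + 1) ^ n + 1) < β) (m : Fin n → ℕ) (hm : StrictMono m) :
    ∃ C : ℝ, ∀ T : ℝ, 1 ≤ T →
      (Bad m d A a b T).Finite ∧ ((Bad m d A a b T).ncard : ℝ) ≤ C * T ^ β := by
  obtain ⟨C, -, hC⟩ := Pool.Agent.TH21.MS.towermain n m hm a ha d A b hab β hβ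
  refine ⟨C, fun T hT => ?_⟩
  obtain ⟨h1, h2⟩ := hC T hT
  have hsub : Bad m d A a b T ⊆ {q : ℚ | (q : ℝ) ∈ Icc a b ∧ (q.den : ℝ) ≤ T ∧
      Pool.Agent.TH21.MS.Rel d (T ^ A) (fun k => ((Pool.Agent.TH21.MS.tower q (m k + 1) : ℝ) : ℂ))} := by
    intro q hq
    refine ⟨hq.1, hq.2.1, ?_⟩
    have h3 := Pool.Agent.TH21.MS.Rel_ofReal d _ _ hq.2.2
    simp only [tower_eq] at h3
    exact h3
  refine ⟨h1.subset hsub, le_trans ?_ h2⟩
  exact_mod_cast Set.ncard_le_ncard hsub h1

end Pool.Agent.Results.MP_93d8d2_nt.TowersRationalBases
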